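import Pool.Agent.Q191.Hopf.Lam

/-! MP_eed25b_nt, Q1: disproof. For the tame `S₃`-extension `𝔽₄(s) / 𝔽₂(s³)` of global function
fields and `𝔅 = 𝔒_L`, the associated order in `K[G]` is a Hopf order, the associated order in
`H_λ` is not. -/

set_option autoImplicit false

open Polynomial Q191.Hopf

namespace Pool.Agent.Results.MP_eed25b_nt.NotHopfOrder

section

variable (O K : Type) {L : Type} [CommRing O] [Field K] [Field L] [Algebra O K] [Algebra K L]
  [Algebra O L]

/-- The associated order of `B` in `K[G]` is a Hopf order over `O`. -/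
def ClassicalHopf (B : Set L) : Prop :=
  IsHopfOrder O K K (Set.univ : Set (MonoidAlgebra K (L ≃ₐ[K] L))) (ordCl B)

/-- The associated order of `B` in `H_λ` is a Hopf order over `O`. -/
def LambdaHopf (B : Set L) : Prop := IsHopfOrder O K L (Hlam K L) (ordLam B)

/-- The comultiplication does not map the associated order of `B` in `H_λ` to its tensor
square. -/
def LambdaNotComul (B : Set L) : Prop :=
  ∃ a ∈ ordLam (K := K) B, Coalgebra.comul (R := L) a ∉ tens (ordLam (K := K) B)

end

/-- The global function field `K = 𝔽₂(t)`. -/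
abbrev K : Type := RatFunc (ZMod 2)

/-- The ring of integers `𝔒_K = 𝔽₂[t]`. -/
abbrev O : Type := (ZMod 2)[X]

/-- There is a finite Galois extension `L` of `K = 𝔽₂(t)` with nonabelian Galois group, such that,
with `𝔒_K = 𝔽₂[t]` and `𝔅 = 𝔒_L` the integral closure of `𝔽₂[t]` in `L`, the associated order
of `𝔅` in `K[G]` is a Hopf order, while the associated order of `𝔅` in `H_λ` is not: it is not
closed under the comultiplication. -/
theorem result :
    ∃ (L : Type) (_ : Field L) (_ : Algebra K L) (_ : Algebra O L) (_ : IsScalarTower O K L),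
      FiniteDimensional K L ∧ IsGalois K L ∧ (∃ g h : L ≃ₐ[K] L, g * h ≠ h * g) ∧
      ClassicalHopf O K (integralClosure O L : Set L) ∧
      ¬ LambdaHopf O K (integralClosure O L : Set L) ∧
      LambdaNotComul K (integralClosure O L : Set L) := by
  refine ⟨LL, inferInstance, inferInstance, inferInstance, inferInstance, inferInstance,
    inferInstance, ⟨sig, tau, ?_⟩, ?_, ?_, ⟨h0, h0_mem, not_comul⟩⟩
  · intro h
    have h1 : (sig * tau) s = (tau * sig) s := by rw [h]
    rw [st_s, AlgEquiv.mul_apply, sig_s, map_mul, tau_w, tau_s] at h1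
    exact w_dist (mul_right_cancel₀ s_ne h1)
  · have : ordCl (K := K) (integralClosure O LL : Set LL) = intCl A KK GG := ordCl_eq
    unfold ClassicalHopf
    rw [this]
    exact isHopfOrder_intCl
  · intro h
    exact not_comul (h.comul_mem h0 h0_mem)

end Pool.Agent.Results.MP_eed25b_nt.NotHopfOrder
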